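import Mathlib
import Pool.Agent.R333.LQ3

/-!
# Uniform bound on the LQR decay rate for skew-Hermitian dynamics

For skew-Hermitian `A` of size `n`, every `B` with `m < n` columns and every Hermitian positive
definite solution `X` of the Riccati equation, the decay rate of `A - B Bᴴ X` is at most
`c(n) Δ(A)`, where `Δ(A)` is the diameter of the spectrum of `A` and `c(n)` is explicit.
-/

set_option linter.style.haveILetI false

open Matrix
open scoped Matrix.Norms.L2Operator ComplexOrder

namespace Pool.Agent.Results.MP_25d917_an.DecayRateBound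

/-- The closed-loop matrix `A - B Bᴴ X`. -/
def closedLoop {n m : ℕ} (A : Matrix (Fin n) (Fin n) ℂ) (B : Matrix (Fin n) (Fin m) ℂ)
    (X : Matrix (Fin n) (Fin n) ℂ) : Matrix (Fin n) (Fin n) ℂ :=
  A - B * Bᴴ * X

/-- The decay rate `- max {Re z : z an eigenvalue of M}`. -/
noncomputable def decayRate {n : ℕ} (M : Matrix (Fin n) (Fin n) ℂ) : ℝ :=
  -sSup ((fun z : ℂ => z.re) '' spectrum ℂ M)

/-- The explicit constant. -/
noncomputable def c (n : ℕ) : ℝ := 8 * n * (1 + 6 * (2 * n + 1) * 2 ^ n)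

lemma exists_unit {n m : ℕ} (hmn : m < n) (B : Matrix (Fin n) (Fin m) ℂ) :
    ∃ w : EuclideanSpace ℂ (Fin n), ‖w‖ = 1 ∧ Bᴴ *ᵥ w.ofLp = 0 := by
  have h1 : LinearMap.ker (Matrix.mulVecLin Bᴴ) ≠ ⊥ := by
    apply LinearMap.ker_ne_bot_of_finrank_lt
    simpa using hmn
  obtain ⟨v, hv, hv0⟩ := Submodule.exists_mem_ne_zero_of_ne_bot h1
  rw [LinearMap.mem_ker, Matrix.mulVecLin_apply] at hv
  set v' : EuclideanSpace ℂ (Fin n) := WithLp.toLp 2 v with hv'
  have hv'0 : v' ≠ 0 := by
    intro h0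
    apply hv0
    have := congrArg WithLp.ofLp h0
    simpa [hv'] using this
  have hnorm : ‖v'‖ ≠ 0 := norm_ne_zero_iff.2 hv'0
  refine ⟨((‖v'‖⁻¹ : ℝ) : ℂ) • v', ?_, ?_⟩
  · rw [norm_smul, Complex.norm_real, norm_inv, norm_norm, inv_mul_cancel₀ hnorm]
  · rw [WithLp.ofLp_smul, Matrix.mulVec_smul, hv', WithLp.ofLp_toLp, hv, smul_zero]

/-- The spectrum of a skew-Hermitian matrix is imaginary. -/
lemma re_eq_zero {n : ℕ} (A : Matrix (Fin n) (Fin n) ℂ) (hA : Aᴴ = -A) (z : ℂ)
    (hz : z ∈ spectrum ℂ A) : z.re = 0 := by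
  have h1 : IsSelfAdjoint (Complex.I • A) := by
    rw [isSelfAdjoint_iff, Matrix.star_eq_conjTranspose, conjTranspose_smul, hA]
    simp
  have h2 : Complex.I * z ∈ spectrum ℂ (Complex.I • A) := by
    have := (spectrum.smul_mem_smul_iff (R := ℂ) (a := A) (s := z)
      (r := Units.mk0 Complex.I Complex.I_ne_zero)).2 hz
    exact this
  have h3 := h1.im_eq_zero_of_mem_spectrum h2
  simpa using h3

/-- **Main theorem.** Let `1 ≤ m < n`, `A` skew-Hermitian of size `n`, `B` any `n × m` matrix and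
`X` any Hermitian positive definite solution of `Aᴴ X + X A - X B Bᴴ X + 1 = 0`. Then the decay
rate of the closed-loop matrix `A - B Bᴴ X` is at most `c n * diam (spectrum A)`. -/
theorem result (n m : ℕ) (_hm : 1 ≤ m) (hmn : m < n) (A : Matrix (Fin n) (Fin n) ℂ)
    (hA : Aᴴ = -A) (B : Matrix (Fin n) (Fin m) ℂ) (X : Matrix (Fin n) (Fin n) ℂ)
    (hX : X.PosDef) (hRic : Aᴴ * X + X * A - X * B * Bᴴ * X + 1 = 0) :
    decayRate (closedLoop A B X) ≤ c n * Metric.diam (spectrum ℂ A) := by
  have hn : 0 < n := by omega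
  haveI : Nonempty (Fin n) := ⟨⟨0, hn⟩⟩
  obtain ⟨v, hv, hBv⟩ := exists_unit hmn B
  have hne : (spectrum ℂ A).Nonempty := spectrum.nonempty_of_isAlgClosed_of_finiteDimensional ℂ A
  have hfin : (spectrum ℂ A).Finite := Matrix.finite_spectrum A
  obtain ⟨l, hl⟩ := hne
  have hl0 : l.re = 0 := re_eq_zero A hA l hl
  have hlstar : star l = -l := by
    apply Complex.ext
    · simp [hl0]
    · simp
  set A' : Matrix (Fin n) (Fin n) ℂ := A - l • 1 with hA'
  have hA'sk : A'ᴴ = -A' := by
    rw [hA', conjTranspose_sub A, conjTranspose_smul, conjTranspose_one, hA, hlstar, neg_smul]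
    abel
  have hXH : Xᴴ = X := hX.isHermitian
  have hXd : X.det ≠ 0 := hX.det_pos.ne'
  have hRic' : -A' * X + X * A' - X * (B * Bᴴ) * X + 1 = 0 := by
    rw [← hRic, hA, hA', ← Matrix.mul_assoc X B Bᴴ]
    have e1 : X * (A - l • (1 : Matrix (Fin n) (Fin n) ℂ)) = X * A - l • X := by
      rw [mul_sub, mul_smul_comm, mul_one]
    have e2 : -(A - l • (1 : Matrix (Fin n) (Fin n) ℂ)) * X = -A * X + l • X := by
      rw [neg_mul, sub_mul, smul_mul_assoc, one_mul, neg_mul]
      abel
    rw [e1, e2]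
    abel
  have hnorm : ‖A'‖ ≤ Metric.diam (spectrum ℂ A) := by
    have hnormal : IsStarNormal A' := by
      constructor
      rw [Matrix.star_eq_conjTranspose, hA'sk]
      exact (Commute.refl A').neg_left
    have h1 := IsStarNormal.spectralRadius_eq_nnnorm A'
    have h2 : spectralRadius ℂ A' ≤ ENNReal.ofReal (Metric.diam (spectrum ℂ A)) := by
      unfold spectralRadius
      apply iSup₂_le
      intro z hz
      have h3 : z + l ∈ spectrum ℂ A := by
        have h4 : A = algebraMap ℂ (Matrix (Fin n) (Fin n) ℂ) l + A' := by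
          rw [hA', Algebra.algebraMap_eq_smul_one]
          abel
        rw [h4]
        exact spectrum.add_mem_add_iff.2 hz
      have h5 := Metric.dist_le_diam_of_mem hfin.isBounded h3 hl
      rw [dist_eq_norm, add_sub_cancel_right] at h5
      rw [← ENNReal.ofReal_coe_nnreal, coe_nnnorm]
      exact ENNReal.ofReal_le_ofReal h5
    rw [h1] at h2
    have h6 : (‖A'‖₊ : ENNReal) = ENNReal.ofReal ‖A'‖ := by
      rw [← coe_nnnorm, ENNReal.ofReal_coe_nnreal]
    rw [h6] at h2
    exact (ENNReal.ofReal_le_ofReal_iff Metric.diam_nonneg).1 h2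
  have hkey : ∀ d : ℝ, 0 < d → Metric.diam (spectrum ℂ A) ≤ d →
      decayRate (closedLoop A B X) ≤ c n * d := by
    intro d hd0 hd
    obtain ⟨μ, hμ, hμd⟩ := Pool.Agent.R333.LQ.core A' X B hA'sk hXH hXd hRic' d hd0
      (hnorm.trans hd) v hv hBv
    have h1 : μ + l ∈ spectrum ℂ (closedLoop A B X) := by
      have h4 : closedLoop A B X = algebraMap ℂ (Matrix (Fin n) (Fin n) ℂ) l +
          (A' - B * Bᴴ * X) := by
        rw [closedLoop, hA', Algebra.algebraMap_eq_smul_one]
        abel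
      rw [h4]
      exact spectrum.add_mem_add_iff.2 hμ
    have h2 : (μ + l).re = μ.re := by
      rw [Complex.add_re, hl0, add_zero]
    have hfin2 : (spectrum ℂ (closedLoop A B X)).Finite := Matrix.finite_spectrum _
    have h3 : μ.re ≤ sSup ((fun z : ℂ => z.re) '' spectrum ℂ (closedLoop A B X)) :=
      le_csSup (hfin2.image _).bddAbove ⟨μ + l, h1, h2⟩
    unfold decayRate
    have h4 : -μ.re ≤ c n * d := hμd
    linarith
  apply le_of_forall_pos_le_add
  intro ε hε
  have hc : 0 < c n := by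
    have : (0 : ℝ) < n := by exact_mod_cast hn
    unfold c
    positivity
  have h1 := hkey (Metric.diam (spectrum ℂ A) + ε / c n)
    (by have := Metric.diam_nonneg (s := spectrum ℂ A); positivity)
    (by have : 0 < ε / c n := by positivity
        linarith)
  rw [mul_add, mul_div_cancel₀ _ hc.ne'] at h1
  exact h1

end Pool.Agent.Results.MP_25d917_an.DecayRateBound
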